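import Mathlib

set_option autoImplicit false

namespace Pool.Agent.Results.MP_de689f_co.NoConst

open Classical SimpleGraph

/-- `α` is a proper colouring with colours `Fin m`. -/
def Proper {V : Type} {m : ℕ} (G : SimpleGraph V) (α : V → Fin m) : Prop :=
  ∀ u v, G.Adj u v → α u ≠ α v

/-- `v` lies in the Kempe chain of `v0` for the colours `a`, `b` (meant for `α v0 ∈ {a, b}`). -/
def Chain {V : Type} {m : ℕ} (G : SimpleGraph V) (α : V → Fin m) (a b : Fin m) (v0 v : V) : Prop :=
  Relation.ReflTransGen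
    (fun x y => G.Adj x y ∧ (α x = a ∨ α x = b) ∧ (α y = a ∨ α y = b)) v0 v

/-- `β` arises from `α` by one Kempe change. -/
def KempeStep {V : Type} {m : ℕ} (G : SimpleGraph V) (α β : V → Fin m) : Prop :=
  ∃ (a b : Fin m) (v0 : V), a ≠ b ∧ (α v0 = a ∨ α v0 = b) ∧
    (∀ v, Chain G α a b v0 v → β v = Equiv.swap a b (α v)) ∧
    (∀ v, ¬ Chain G α a b v0 v → β v = α v)

/-- `G` has no induced 4-cycle. -/
def C4Free {V : Type} (G : SimpleGraph V) : Prop := IsEmpty (cycleGraph 4 ↪g G)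

section
variable (m p : ℕ)

def tt (i : Fin 3) (a : Fin m) : ℕ := if i = 0 then a else if i = 1 then a + m else 2 * a + 2 * m

def gr : SimpleGraph (Fin 3 × Fin m × ZMod p) where
  Adj u v := u.1 ≠ v.1 ∧ u.2.1 ≠ v.2.1 ∧
    u.2.2 + v.2.2 = (tt m u.1 u.2.1 : ZMod p) * (tt m v.1 v.2.1 : ZMod p)
  symm := ⟨fun u v h => ⟨h.1.symm, h.2.1.symm, by rw [add_comm, mul_comm]; exact h.2.2⟩⟩
  loopless := ⟨fun _ h => h.1 rfl⟩

variable {m p}

lemma cast_inj (hp : 4 * m < p) {x y : ℕ} (hx : x < 4 * m) (hy : y < 4 * m)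
    (h : (x : ZMod p) = y) : x = y := by
  rw [ZMod.natCast_eq_natCast_iff', Nat.mod_eq_of_lt (by omega), Nat.mod_eq_of_lt (by omega)] at h
  exact h

lemma tt_inj (hp : 4 * m < p) {i j : Fin 3} {a b : Fin m}
    (h : (tt m i a : ZMod p) = tt m j b) : i = j ∧ a = b := by
  have ha := a.2
  have hb := b.2
  have := cast_inj hp (x := tt m i a) (y := tt m j b)
    (by unfold tt; split_ifs <;> omega) (by unfold tt; split_ifs <;> omega) h
  unfold tt at this
  fin_cases i <;> fin_cases j <;> simp at this ⊢ <;> omega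

lemma common [Fact p.Prime] (hp : 4 * m < p) {u v x y : Fin 3 × Fin m × ZMod p}
    (h1 : (gr m p).Adj u x) (h2 : (gr m p).Adj v x) (h3 : (gr m p).Adj u y)
    (h4 : (gr m p).Adj v y) : u = v ∨ x = y := by
  have e : ((tt m u.1 u.2.1 : ZMod p) - tt m v.1 v.2.1) *
      ((tt m x.1 x.2.1 : ZMod p) - tt m y.1 y.2.1) = 0 := by
    linear_combination -h1.2.2 + h2.2.2 + h3.2.2 - h4.2.2
  rcases mul_eq_zero.1 e with h | h
  · left
    obtain ⟨a1, a2⟩ := tt_inj hp (sub_eq_zero.1 h)
    refine Prod.ext a1 (Prod.ext a2 ?_)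
    linear_combination h1.2.2 - h2.2.2 + h * (tt m x.1 x.2.1 : ZMod p)
  · right
    obtain ⟨a1, a2⟩ := tt_inj hp (sub_eq_zero.1 h)
    refine Prod.ext a1 (Prod.ext a2 ?_)
    linear_combination h1.2.2 - h3.2.2 + h * (tt m u.1 u.2.1 : ZMod p)

lemma c4 [Fact p.Prime] (hp : 4 * m < p) : C4Free (gr m p) := by
  refine ⟨fun f => ?_⟩
  have h := common hp (u := f 0) (v := f 2) (x := f 1) (y := f 3)
    (f.map_adj_iff.2 (by decide)) (f.map_adj_iff.2 (by decide))
    (f.map_adj_iff.2 (by decide)) (f.map_adj_iff.2 (by decide))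
  rcases h with h | h
  · exact absurd (f.injective h) (by decide)
  · exact absurd (f.injective h) (by decide)

lemma conn [Fact p.Prime] (hp : 4 * m < p) {a b : Fin m} (hab : a ≠ b)
    (R : (Fin 3 × Fin m × ZMod p) → (Fin 3 × Fin m × ZMod p) → Prop) (hR : Equivalence R)
    (h : ∀ u v, (gr m p).Adj u v → u.2.1 = a → v.2.1 = b → R u v)
    (u : Fin 3 × Fin m × ZMod p) (hu : u.2.1 = a ∨ u.2.1 = b) : R u (0, a, 0) := by
  have s1 : ∀ i j x, i ≠ j → R (i, a, x) (j, b, (tt m i a : ZMod p) * tt m j b - x) :=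
    fun i j x hij => h _ _ ⟨hij, hab, by simp⟩ rfl rfl
  have s2 : ∀ i j x, i ≠ j → R (j, b, x) (i, a, (tt m i a : ZMod p) * tt m j b - x) :=
    fun i j x hij => hR.symm (h _ _ ⟨hij, hab, by simp⟩ rfl rfl)
  have hd : (m : ZMod p) * ((a : ℕ) - (b : ℕ)) ≠ 0 := by
    refine mul_ne_zero ?_ ?_
    · intro h0
      have := cast_inj hp (x := m) (y := 0) (by have := a.2; omega) (by have := a.2; omega)
        (by simpa using h0)
      have := a.2
      omega
    · intro h0
      have := cast_inj hp (x := a) (y := b) (by have := a.2; omega) (by have := b.2; omega)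
        (sub_eq_zero.1 h0)
      exact hab (Fin.ext this)
  have loop : ∀ x, R (0, a, x) (0, a, x + (m : ZMod p) * ((a : ℕ) - (b : ℕ))) := by
    intro x
    have := hR.trans (hR.trans (hR.trans (hR.trans (hR.trans (s1 0 1 x (by decide))
      (s2 2 1 _ (by decide))) (s1 2 0 _ (by decide))) (s2 1 0 _ (by decide)))
      (s1 1 2 _ (by decide))) (s2 0 2 _ (by decide))
    convert this using 3
    simp [tt]
    ring
  have loopn : ∀ (n : ℕ) x, R (0, a, x) (0, a, x + n * ((m : ZMod p) * ((a : ℕ) - (b : ℕ)))) := by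
    intro n x
    induction n with
    | zero => simpa using hR.refl _
    | succ n ih =>
      have := hR.trans ih (loop _)
      convert this using 3
      push_cast
      ring
  have h0 : ∀ x, R (0, a, x) (0, a, 0) := by
    intro x
    have := loopn (-x / ((m : ZMod p) * ((a : ℕ) - (b : ℕ)))).val x
    rw [ZMod.natCast_zmod_val, div_mul_cancel₀ _ hd] at this
    simpa using this
  have hb : ∀ j x, j ≠ 0 → R (j, b, x) (0, a, 0) :=
    fun j x hj => hR.trans (s2 0 j x hj.symm) (h0 _)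
  have ha : ∀ i x, R (i, a, x) (0, a, 0) := by
    intro i x
    by_cases hi : i = 1
    · exact hR.trans (s1 i 2 x (by rw [hi]; decide)) (hb _ _ (by decide))
    · exact hR.trans (s1 i 1 x hi) (hb _ _ (by decide))
  obtain ⟨i, c, x⟩ := u
  rcases hu with hu | hu
  · simp only at hu; subst hu; exact ha _ _
  · simp only at hu; subst hu
    by_cases hi : i = 0
    · exact hR.trans (s2 1 i x (by rw [hi]; decide)) (ha _ _)
    · exact hb _ _ hi

lemma chain_equiv {V : Type} {m : ℕ} (G : SimpleGraph V) (α : V → Fin m) (a b : Fin m) :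
    Equivalence (Chain G α a b) :=
  ⟨fun _ => Relation.ReflTransGen.refl,
   fun h => by
     induction h with
     | refl => exact Relation.ReflTransGen.refl
     | tail _ h2 ih => exact Relation.ReflTransGen.head ⟨h2.1.symm, h2.2.2, h2.2.1⟩ ih,
   fun h1 h2 => h1.trans h2⟩

lemma chain_col {V : Type} {m : ℕ} {G : SimpleGraph V} {α : V → Fin m} {a b : Fin m} {v0 v : V}
    (h0 : α v0 = a ∨ α v0 = b) (h : Chain G α a b v0 v) : α v = a ∨ α v = b := by
  induction h with
  | refl => exact h0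
  | tail _ h2 _ => exact h2.2.2

lemma frozen [Fact p.Prime] (hp : 4 * m < p) (α β : Fin 3 × Fin m × ZMod p → Fin m)
    (hα : ∃ π : Equiv.Perm (Fin m), ∀ v, α v = π v.2.1) (h : KempeStep (gr m p) α β) :
    ∃ π : Equiv.Perm (Fin m), ∀ v, β v = π v.2.1 := by
  obtain ⟨π, hπ⟩ := hα
  obtain ⟨a, b, v0, hab, h0, h1, h2⟩ := h
  refine ⟨π.trans (Equiv.swap a b), fun v => ?_⟩
  have key : ∀ u, (α u = a ∨ α u = b) → Chain (gr m p) α a b u (0, π.symm a, 0) := by
    intro u hu
    refine conn hp (b := π.symm b) (fun h => hab (π.symm.injective h)) _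
      (chain_equiv _ α a b) ?_ u ?_
    · intro x y hxy hx hy
      exact Relation.ReflTransGen.single
        ⟨hxy, Or.inl (by rw [hπ, hx]; simp), Or.inr (by rw [hπ, hy]; simp)⟩
    · rw [hπ] at hu
      rcases hu with hu | hu
      · left; rw [← hu]; simp
      · right; rw [← hu]; simp
  by_cases hv : α v = a ∨ α v = b
  · rw [h1 v ((chain_equiv _ α a b).trans (key v0 h0) ((chain_equiv _ α a b).symm (key v hv))), hπ]
    rfl
  · rw [h2 v (fun h => hv (chain_col h0 h)), Equiv.trans_apply, ← hπ]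
    rw [not_or] at hv
    exact (Equiv.swap_apply_of_ne_of_ne hv.1 hv.2).symm

end

lemma transfer {V W : Type} {m : ℕ} (e : W ≃ V) (G : SimpleGraph V) (α β : W → Fin m)
    (h : KempeStep (G.comap e) α β) : KempeStep G (α ∘ e.symm) (β ∘ e.symm) := by
  obtain ⟨a, b, v0, hab, h0, h1, h2⟩ := h
  have key : ∀ v, Chain G (α ∘ e.symm) a b (e v0) v ↔ Chain (G.comap e) α a b v0 (e.symm v) := by
    intro v
    constructor
    · intro h
      induction h with
      | refl => rw [Equiv.symm_apply_apply]; exact Relation.ReflTransGen.refl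
      | tail _ h2 ih => exact ih.tail ⟨by simpa using h2.1, h2.2⟩
    · intro h
      have aux : ∀ w, Chain (G.comap e) α a b v0 w → Chain G (α ∘ e.symm) a b (e v0) (e w) := by
        intro w h
        induction h with
        | refl => exact Relation.ReflTransGen.refl
        | tail _ h2 ih => exact ih.tail ⟨h2.1, by simpa using h2.2⟩
      simpa using aux _ h
  exact ⟨a, b, e v0, hab, by simpa using h0, fun v hv => h1 _ ((key v).1 hv),
    fun v hv => h2 _ (fun h => hv ((key v).2 h))⟩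

lemma main (c : ℕ) : ∃ (n : ℕ) (G : SimpleGraph (Fin n)), C4Free G ∧ G.Colorable 3 ∧
    ∃ α β : Fin n → Fin (3 + c), Proper G α ∧ Proper G β ∧
      ¬ Relation.ReflTransGen (KempeStep G) α β := by
  obtain ⟨p, hp, hpp⟩ := Nat.exists_infinite_primes (4 * (3 + c) + 1)
  haveI : Fact p.Prime := ⟨hpp⟩
  have hp' : 4 * (3 + c) < p := hp
  let e := (Fintype.equivFin (Fin 3 × Fin (3 + c) × ZMod p)).symm
  refine ⟨_, (gr (3 + c) p).comap e, ?_, ⟨Coloring.mk (fun v => (e v).1) fun h => h.1⟩,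
    fun v => (e v).2.1, fun v => Fin.castLE (by omega) (e v).1, fun u v h => h.2.1,
    fun u v h h' => h.1 (Fin.castLE_injective _ h'), fun h => ?_⟩
  · exact ⟨fun f => (c4 hp').1 ((Iso.comap e (gr (3 + c) p)).toEmbedding.comp f)⟩
  · have key : ∀ β, Relation.ReflTransGen (KempeStep ((gr (3 + c) p).comap e))
        (fun v => (e v).2.1) β → ∃ π : Equiv.Perm (Fin (3 + c)), ∀ v, (β ∘ e.symm) v = π v.2.1 := by
      intro β hβ
      induction hβ with
      | refl => exact ⟨1, fun v => by simp⟩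
      | tail _ h2 ih => exact frozen hp' _ _ ih (transfer e _ _ _ h2)
    obtain ⟨π, hπ⟩ := key _ h
    have h1 := hπ (0, ⟨0, by omega⟩, 0)
    have h2 := hπ (1, ⟨0, by omega⟩, 0)
    simp only [Function.comp, Equiv.apply_symm_apply] at h1 h2
    exact absurd (Fin.castLE_injective _ (h1.trans h2.symm)) (by decide)

theorem result :
    (∀ c : ℕ, ∃ (n : ℕ) (G : SimpleGraph (Fin n)), C4Free G ∧ G.Colorable 3 ∧
      ∃ α β : Fin n → Fin (3 + c), Proper G α ∧ Proper G β ∧
        ¬ Relation.ReflTransGen (KempeStep G) α β) ∧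
    ¬ ∃ c : ℕ, ∀ k : ℕ, 1 ≤ k → ∀ (n : ℕ) (G : SimpleGraph (Fin n)), C4Free G → G.Colorable k →
      ∀ α β : Fin n → Fin (k + c), Proper G α → Proper G β →
        Relation.ReflTransGen (KempeStep G) α β := by
  refine ⟨main, ?_⟩
  rintro ⟨c, hc⟩
  obtain ⟨n, G, h1, h2, α, β, h3, h4, h5⟩ := main c
  exact h5 (hc 3 (by norm_num) n G h1 h2 α β h3 h4)

end Pool.Agent.Results.MP_de689f_co.NoConst
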